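import Mathlib

namespace H41.FZ

open Finset

section Defs

variable {α β : Type*}

/-- matchings -/
def IsM (σ : Finset (α × β)) : Prop :=
  ∀ e ∈ σ, ∀ e' ∈ σ, (e.1 = e'.1 ∨ e.2 = e'.2) → e = e'

/-- the left vertex `a` is not covered -/
def FreeL (σ : Finset (α × β)) (a : α) : Prop := ∀ e ∈ σ, e.1 ≠ a

/-- the right vertex `b` is not covered -/
def FreeR (σ : Finset (α × β)) (b : β) : Prop := ∀ e ∈ σ, e.2 ≠ b

theorem isM_empty : IsM (∅ : Finset (α × β)) := by
  intro e he; simp at he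

theorem IsM.subset {σ τ : Finset (α × β)} (h : IsM τ) (hs : σ ⊆ τ) : IsM σ :=
  fun e he e' he' hh => h e (hs he) e' (hs he') hh

theorem FreeL.subset {σ τ : Finset (α × β)} {a : α} (h : FreeL τ a) (hs : σ ⊆ τ) : FreeL σ a :=
  fun e he => h e (hs he)

theorem FreeR.subset {σ τ : Finset (α × β)} {b : β} (h : FreeR τ b) (hs : σ ⊆ τ) : FreeR σ b :=
  fun e he => h e (hs he)

theorem FreeL.not_mem {σ : Finset (α × β)} {a : α} (h : FreeL σ a) (b : β) : (a, b) ∉ σ :=
  fun hm => h _ hm rfl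

theorem FreeR.not_mem {σ : Finset (α × β)} {b : β} (h : FreeR σ b) (a : α) : (a, b) ∉ σ :=
  fun hm => h _ hm rfl

end Defs

section Co

variable (K : Type*) [Field K] (α β : Type*) [Fintype α] [Fintype β] [DecidableEq α] [DecidableEq β]

/-- consistent functions on matchings of size at most `s` -/
def Co (s : ℕ) : Submodule K (Finset (α × β) → K) where
  carrier := {F | (∀ σ, ¬ IsM σ → F σ = 0) ∧ (∀ σ, s < σ.card → F σ = 0) ∧
    (∀ σ, IsM σ → σ.card < s → ∀ a, FreeL σ a → ∑ b, F (insert (a, b) σ) = F σ) ∧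
    (∀ σ, IsM σ → σ.card < s → ∀ b, FreeR σ b → ∑ a, F (insert (a, b) σ) = F σ)}
  add_mem' := by
    rintro F G ⟨h1, h2, h3, h4⟩ ⟨g1, g2, g3, g4⟩
    refine ⟨fun σ hσ => ?_, fun σ hσ => ?_, fun σ hσ hc a ha => ?_, fun σ hσ hc b hb => ?_⟩
    · simp [h1 σ hσ, g1 σ hσ]
    · simp [h2 σ hσ, g2 σ hσ]
    · simp only [Pi.add_apply, Finset.sum_add_distrib, h3 σ hσ hc a ha, g3 σ hσ hc a ha]
    · simp only [Pi.add_apply, Finset.sum_add_distrib, h4 σ hσ hc b hb, g4 σ hσ hc b hb]
  zero_mem' := by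
    refine ⟨fun σ hσ => rfl, fun σ hσ => rfl, fun σ hσ hc a ha => ?_, fun σ hσ hc b hb => ?_⟩ <;> simp
  smul_mem' := by
    rintro c F ⟨h1, h2, h3, h4⟩
    refine ⟨fun σ hσ => ?_, fun σ hσ => ?_, fun σ hσ hc a ha => ?_, fun σ hσ hc b hb => ?_⟩
    · simp [h1 σ hσ]
    · simp [h2 σ hσ]
    · simp only [Pi.smul_apply, smul_eq_mul, ← Finset.mul_sum, h3 σ hσ hc a ha]
    · simp only [Pi.smul_apply, smul_eq_mul, ← Finset.mul_sum, h4 σ hσ hc b hb]

theorem mem_Co {s : ℕ} {F : Finset (α × β) → K} : F ∈ Co K α β s ↔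
    (∀ σ, ¬ IsM σ → F σ = 0) ∧ (∀ σ, s < σ.card → F σ = 0) ∧
    (∀ σ, IsM σ → σ.card < s → ∀ a, FreeL σ a → ∑ b, F (insert (a, b) σ) = F σ) ∧
    (∀ σ, IsM σ → σ.card < s → ∀ b, FreeR σ b → ∑ a, F (insert (a, b) σ) = F σ) := Iff.rfl

end Co

section Pull

variable {α β A B : Type*} [DecidableEq α] [DecidableEq β] [Fintype A] [Fintype B]
  [DecidableEq A] [DecidableEq B]

/-- pull back a set of edges along embeddings -/
def pull (f : A → α) (g : B → β) (σ : Finset (α × β)) : Finset (A × B) :=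
  univ.filter (fun e => (f e.1, g e.2) ∈ σ)

@[simp] theorem mem_pull {f : A → α} {g : B → β} {σ : Finset (α × β)} {e : A × B} :
    e ∈ pull f g σ ↔ (f e.1, g e.2) ∈ σ := by simp [pull]

theorem IsM.pull {f : A → α} {g : B → β} (hf : f.Injective) (hg : g.Injective)
    {σ : Finset (α × β)} (h : IsM σ) : IsM (pull f g σ) := by
  rintro e he e' he' hh
  have := h _ (mem_pull.1 he) _ (mem_pull.1 he') (by
    rcases hh with hh | hh
    · left; simp [hh]
    · right; simp [hh])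
  simp only [Prod.mk.injEq] at this
  exact Prod.ext (hf this.1) (hg this.2)

theorem FreeL.pull {f : A → α} {g : B → β} (hf : f.Injective)
    {σ : Finset (α × β)} {a : A} (h : FreeL σ (f a)) : FreeL (pull f g σ) a := by
  intro e he hea
  exact h _ (mem_pull.1 he) (by simp [hea])

theorem FreeR.pull {f : A → α} {g : B → β} (hg : g.Injective)
    {σ : Finset (α × β)} {b : B} (h : FreeR σ (g b)) : FreeR (pull f g σ) b := by
  intro e he hea
  exact h _ (mem_pull.1 he) (by simp [hea])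

theorem pull_insert {f : A → α} {g : B → β} (hf : f.Injective) (hg : g.Injective)
    (σ : Finset (α × β)) (a : A) (b : B) :
    pull f g (insert (f a, g b) σ) = insert (a, b) (pull f g σ) := by
  ext ⟨x, y⟩
  simp only [mem_pull, Finset.mem_insert, Prod.mk.injEq]
  constructor
  · rintro (⟨h1, h2⟩ | h)
    · exact Or.inl ⟨hf h1, hg h2⟩
    · exact Or.inr h
  · rintro (⟨h1, h2⟩ | h)
    · exact Or.inl ⟨by rw [h1], by rw [h2]⟩
    · exact Or.inr h

theorem pull_insert_of_not {f : A → α} {g : B → β}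
    (σ : Finset (α × β)) (x : α) (y : β) (h : ∀ a b, ¬ (f a = x ∧ g b = y)) :
    pull f g (insert (x, y) σ) = pull f g σ := by
  ext ⟨a, b⟩
  simp only [mem_pull, Finset.mem_insert, Prod.mk.injEq]
  constructor
  · rintro (h' | h')
    · exact absurd h' (h a b)
    · exact h'
  · exact fun h' => Or.inr h'

theorem card_pull_le {f : A → α} {g : B → β} (hf : f.Injective) (hg : g.Injective)
    (σ : Finset (α × β)) : (pull f g σ).card ≤ σ.card := by
  refine Finset.card_le_card_of_injOn (fun e => (f e.1, g e.2)) (fun e he => mem_pull.1 he) ?_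
  rintro e he e' he' h
  simp only [Prod.mk.injEq] at h
  exact Prod.ext (hf h.1) (hg h.2)

theorem pull_empty {f : A → α} {g : B → β} : pull f g (∅ : Finset (α × β)) = ∅ := by
  ext e; simp

end Pull

end H41.FZ
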