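import Pool.Agent.Helper41.FZ.Local

namespace H41.FZ

open Finset

section Design

variable {K : Type*} [Field K] {J A B : Type*} [Fintype A] [Fintype B] [Fintype J]
  [DecidableEq A] [DecidableEq B] [DecidableEq J]

/-- colour for the `i`-th summand -/
def cI (i : J) : (J × A) ⊕ B → J := Sum.elim Prod.fst (fun _ => i)

/-- all colours -/
def c0 : (J × A) ⊕ B → Option J := Sum.elim (fun x => some x.1) (fun _ => none)

/-- embedding of a square -/
def E (i : J) : A ⊕ B → (J × A) ⊕ B := Sum.map (Prod.mk i) id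

/-- embedding of a small block -/
def L (j : J) : A → (J × A) ⊕ B := fun a => Sum.inl (j, a)

omit [Fintype A] [Fintype B] [Fintype J] [DecidableEq A] [DecidableEq B] [DecidableEq J] in
theorem E_inj (i : J) : (E i : A ⊕ B → (J × A) ⊕ B).Injective := by
  rintro (a | b) (a' | b') h <;> simp [E] at h ⊢ <;> exact h

omit [Fintype A] [Fintype B] [Fintype J] [DecidableEq A] [DecidableEq B] [DecidableEq J] in
theorem L_inj (i : J) : (L i : A → (J × A) ⊕ B).Injective := by
  intro a a' h; simpa [L] using h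

omit [Fintype A] [Fintype B] [Fintype J] [DecidableEq A] [DecidableEq B] [DecidableEq J] in
theorem cI_eq_self (i : J) (x : (J × A) ⊕ B) : cI i x = i ↔ ∃ a, E i a = x := by
  rcases x with ⟨j, a⟩ | b
  · constructor
    · intro h
      have : j = i := h
      subst this
      exact ⟨Sum.inl a, rfl⟩
    · rintro ⟨a' | b', h⟩
      · simp [E] at h; simp [cI, h.1]
      · simp [E] at h
  · exact ⟨fun _ => ⟨Sum.inr b, rfl⟩, fun _ => rfl⟩

omit [Fintype A] [Fintype B] [Fintype J] [DecidableEq A] [DecidableEq B] [DecidableEq J] in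
theorem cI_eq_ne {i l : J} (hl : l ≠ i) (x : (J × A) ⊕ B) : cI i x = l ↔ ∃ a, L l a = x := by
  rcases x with ⟨j, a⟩ | b
  · constructor
    · intro h
      have : j = l := h
      subst this
      exact ⟨a, rfl⟩
    · rintro ⟨a', h⟩
      simp [L] at h; simp [cI, h.1]
  · constructor
    · intro h
      have : i = l := h
      exact absurd this.symm hl
    · rintro ⟨a', h⟩
      simp [L] at h

omit [Fintype A] [Fintype B] [Fintype J] [DecidableEq A] [DecidableEq B] [DecidableEq J] in
theorem cI_E (i : J) (x : A ⊕ B) : cI i (E i x) = i := (cI_eq_self i _).2 ⟨x, rfl⟩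

omit [Fintype A] [Fintype B] [Fintype J] [DecidableEq A] [DecidableEq B] [DecidableEq J] in
theorem cI_L (i l : J) (x : A) : cI (B := B) i (L l x) = l := rfl

variable (h : Finset (A × B) → K) (bt : Finset ((A ⊕ B) × (B ⊕ A)) → K)

/-- local functions -/
def hI (i l : J) (τ : Finset (((J × A) ⊕ B) × ((J × B) ⊕ A))) : K :=
  if l = i then bt (pull (E i) (E i) τ) else h (pull (L l) (L l) τ)

/-- the `i`-th summand -/
noncomputable def Hi (i : J) : Finset (((J × A) ⊕ B) × ((J × B) ⊕ A)) → K :=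
  prodF (cI i) (cI i) (hI h bt i)

/-- two colours for a square -/
def h2 (l : Bool) (τ : Finset ((A ⊕ B) × (B ⊕ A))) : K :=
  if l = true then h (pull Sum.inl Sum.inl τ) else h (swp (pull Sum.inr Sum.inr τ))

/-- the product on the square -/
noncomputable def G2 : Finset ((A ⊕ B) × (B ⊕ A)) → K :=
  prodF Sum.isLeft Sum.isLeft (h2 h)

/-- completely split local functions -/
def h0 (l : Option J) (τ : Finset (((J × A) ⊕ B) × ((J × B) ⊕ A))) : K :=
  match l with
  | some j => h (pull (L j) (L j) τ)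
  | none => h (swp (pull Sum.inr Sum.inr τ))

omit [Fintype J] in
theorem h0_some_blk (l : J) (σ : Finset (((J × A) ⊕ B) × ((J × B) ⊕ A))) :
    h0 h (some l) (blk c0 c0 (some l) σ) = h (pull (L l) (L l) σ) := by
  change h (pull (L l) (L l) (blk c0 c0 (some l) σ)) = _
  rw [pull_blk]
  · intro a; rfl
  · intro a; rfl

omit [Fintype J] in
theorem h0_none_blk (σ : Finset (((J × A) ⊕ B) × ((J × B) ⊕ A))) :
    h0 h none (blk c0 c0 none σ) = h (swp (pull Sum.inr Sum.inr σ)) := by
  change h (swp (pull Sum.inr Sum.inr (blk c0 c0 none σ))) = _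
  rw [pull_blk]
  · intro a; rfl
  · intro a; rfl

/-- completely split product -/
noncomputable def H0 : Finset (((J × A) ⊕ B) × ((J × B) ⊕ A)) → K :=
  prodF c0 c0 (h0 h)

open Classical in
theorem G2_mem_Co {D : ℕ} (hh : h ∈ Co K A B D) :
    (fun σ => if σ.card ≤ D then G2 h σ else 0) ∈ Co K (A ⊕ B) (B ⊕ A) D := by
  have := @prodF_mem_Co K _ (A ⊕ B) (B ⊕ A) Bool _ _ _ _ _ _ Sum.isLeft Sum.isLeft (h2 h) D ?_
  · exact this
  · rintro (_ | _)
    · exact LocCo.of_Co (K := K) (f := (Sum.inr : B → A ⊕ B)) (g := (Sum.inr : A → B ⊕ A))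
        Sum.inr_injective Sum.inr_injective (c := Sum.isLeft) (c' := Sum.isLeft) (l := false)
        (by rintro (a | b) <;> simp) (by rintro (a | b) <;> simp) (swp_mem_Co hh)
    · exact LocCo.of_Co (K := K) (f := (Sum.inl : A → A ⊕ B)) (g := (Sum.inl : B → B ⊕ A))
        Sum.inl_injective Sum.inl_injective (c := Sum.isLeft) (c' := Sum.isLeft) (l := true)
        (by rintro (a | b) <;> simp) (by rintro (a | b) <;> simp) hh

/-- on matchings whose square part is small the summands do not depend on `i` -/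
theorem Hi_eq_H0 {D : ℕ} (hbt : ∀ τ, τ.card ≤ D → bt τ = G2 h τ) (i : J)
    (σ : Finset (((J × A) ⊕ B) × ((J × B) ⊕ A))) (hσ : (pull (E i) (E i) σ).card ≤ D) :
    Hi h bt i σ = H0 h σ := by
  classical
  have e1 : pull (E i) (E i) (blk (cI i) (cI i) i σ) = pull (E i) (E i) σ :=
    pull_blk _ _ _ _ _ (cI_E i) (cI_E i) σ
  have hgood : Good (c0 (J := J) (A := A) (B := B)) (c0 (J := J) (A := B) (B := A)) σ ↔
      Good (cI i) (cI i) σ ∧ Good Sum.isLeft Sum.isLeft (pull (E i) (E i) σ) := by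
    constructor
    · intro hG
      constructor
      · rintro ⟨x, y⟩ he
        have := hG _ he
        rcases x with ⟨j, a⟩ | b <;> rcases y with ⟨j', b'⟩ | a' <;> simp [c0, cI] at this ⊢
        exact this
      · rintro ⟨x, y⟩ he
        have := hG _ (mem_pull.1 he)
        rcases x with a | b <;> rcases y with b' | a' <;> simp [c0, E] at this ⊢
    · rintro ⟨h1, h2⟩ ⟨x, y⟩ he
      have h3 := h1 _ he
      rcases x with ⟨j, a⟩ | b <;> rcases y with ⟨j', b'⟩ | a' <;> simp [c0, cI] at h3 ⊢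
      · exact h3
      · subst h3
        have := h2 (Sum.inl a, Sum.inr a') (mem_pull.2 (by simpa [E] using he))
        simp at this
      · subst h3
        have := h2 (Sum.inr b, Sum.inl b') (mem_pull.2 (by simpa [E] using he))
        simp at this
  unfold Hi H0
  rw [prodF_split σ i]
  by_cases hG : Good (cI i) (cI i) σ
  · rw [if_pos hG]
    have e2 : hI h bt i i (blk (cI i) (cI i) i σ) = G2 h (pull (E i) (E i) σ) := by
      unfold hI
      rw [if_pos rfl, e1, hbt _ hσ]
    rw [e2]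
    unfold G2 prodF
    by_cases hG2 : Good Sum.isLeft Sum.isLeft (pull (E i) (E i) σ)
    · rw [if_pos hG2, if_pos (hgood.2 ⟨hG, hG2⟩), Fintype.prod_option, Fintype.prod_bool,
        ← Finset.mul_prod_erase univ _ (Finset.mem_univ i)]
      have e3 : h2 h true (blk Sum.isLeft Sum.isLeft true (pull (E i) (E i) σ)) =
          h0 h (some i) (blk c0 c0 (some i) σ) := by
        rw [h0_some_blk]
        unfold h2
        rw [if_pos rfl, pull_blk _ _ _ _ _ (by simp) (by simp), pull_pull]
        rfl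
      have e4 : h2 h false (blk Sum.isLeft Sum.isLeft false (pull (E i) (E i) σ)) =
          h0 h none (blk (c0 (J := J)) c0 none σ) := by
        rw [h0_none_blk]
        unfold h2
        rw [if_neg (by simp), pull_blk _ _ _ _ _ (by simp) (by simp), pull_pull]
        rfl
      rw [e3, e4]
      have e5 : ∏ l ∈ univ.erase i, hI h bt i l (blk (cI i) (cI i) l σ) =
          ∏ l ∈ univ.erase i, h0 h (some l) (blk c0 c0 (some l) σ) := by
        refine Finset.prod_congr rfl fun l hl => ?_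
        have hl' : l ≠ i := Finset.ne_of_mem_erase hl
        rw [h0_some_blk]
        unfold hI
        rw [if_neg hl', pull_blk _ _ _ _ _ (cI_L i l) (cI_L i l)]
      rw [e5]
      ring
    · rw [if_neg hG2, if_neg (fun hc => hG2 (hgood.1 hc).2)]
      simp
  · rw [if_neg hG]
    unfold prodF
    rw [if_neg (fun hc => hG (hgood.1 hc).1)]

theorem Hi_empty (i : J) (h1 : h ∅ = 1) (h2 : bt ∅ = 1) : Hi h bt i ∅ = 1 := by
  classical
  unfold Hi prodF
  rw [if_pos good_empty]
  refine Finset.prod_eq_one fun l _ => ?_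
  rw [blk_empty]
  unfold hI
  rw [pull_empty, pull_empty]
  split_ifs <;> assumption

variable {h bt}

/-- exact marginals in the own block -/
theorem Hi_margL_own {S : ℕ} (hbt : bt ∈ Co K (A ⊕ B) (B ⊕ A) S) (i : J)
    (σ : Finset (((J × A) ⊕ B) × ((J × B) ⊕ A))) (hM : IsM σ) (hS : σ.card < S)
    (x : (J × A) ⊕ B) (hx : cI i x = i) (hf : FreeL σ x) :
    ∑ y, Hi h bt i (insert (x, y) σ) = Hi h bt i σ := by
  have hloc := LocCo.of_Co (K := K) (E_inj (A := A) (B := B) i) (E_inj (A := B) (B := A) i)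
    (c := cI i) (c' := cI i) (l := i) (cI_eq_self i) (cI_eq_self i) hbt
  refine prodF_margL_eq σ x ?_
  rw [hx]
  unfold hI
  simp only [if_true]
  exact hloc.margL _ (fun e he => (mem_blk.1 he).2) (hM.subset blk_subset)
    (lt_of_le_of_lt (Finset.card_le_card blk_subset) hS) x hx (hf.subset blk_subset)

theorem Hi_margR_own {S : ℕ} (hbt : bt ∈ Co K (A ⊕ B) (B ⊕ A) S) (i : J)
    (σ : Finset (((J × A) ⊕ B) × ((J × B) ⊕ A))) (hM : IsM σ) (hS : σ.card < S)
    (y : (J × B) ⊕ A) (hy : cI i y = i) (hf : FreeR σ y) :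
    ∑ x, Hi h bt i (insert (x, y) σ) = Hi h bt i σ := by
  have hloc := LocCo.of_Co (K := K) (E_inj (A := A) (B := B) i) (E_inj (A := B) (B := A) i)
    (c := cI i) (c' := cI i) (l := i) (cI_eq_self i) (cI_eq_self i) hbt
  refine prodF_margR_eq σ y ?_
  rw [hy]
  unfold hI
  simp only [if_true]
  exact hloc.margR _ (fun e he => (mem_blk.1 he).2) (hM.subset blk_subset)
    (lt_of_le_of_lt (Finset.card_le_card blk_subset) hS) y hy (hf.subset blk_subset)

theorem Hi_margL_other {D : ℕ} (hh : h ∈ Co K A B D) {i j : J} (hj : j ≠ i)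
    (σ : Finset (((J × A) ⊕ B) × ((J × B) ⊕ A))) (hM : IsM σ) (a : A) (hf : FreeL σ (L j a)) :
    ∑ y, Hi h bt i (insert (L j a, y) σ) =
      if (pull (L j) (L j) σ).card = D then 0 else Hi h bt i σ := by
  have key : ∑ y ∈ univ.filter (fun y : (J × B) ⊕ A => cI i y = cI i (L j a : (J × A) ⊕ B)),
      hI h bt i (cI i (L j a : (J × A) ⊕ B)) (insert (L j a, y)
        (blk (cI i) (cI i) (cI i (L j a : (J × A) ⊕ B)) σ)) =
      ∑ b, h (insert (a, b) (pull (L j) (L j) σ)) := by
    simp only [cI_L]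
    unfold hI
    simp only [if_neg hj]
    rw [sum_localL (L_inj j) (L_inj j) (cI i) j (cI_eq_ne hj),
      pull_blk _ _ _ _ _ (cI_L i j) (cI_L i j)]
  have hM' : IsM (pull (L j) (L j) σ) := hM.pull (L_inj j) (L_inj j)
  have hf' : FreeL (pull (L j) (L j) σ) a := hf.pull (L_inj j)
  obtain ⟨f1, f2, f3, f4⟩ := hh
  rcases lt_trichotomy (pull (L j) (L j) σ).card D with hlt | heq | hgt
  · rw [if_neg hlt.ne]
    refine prodF_margL_eq σ _ ?_
    rw [key, f3 _ hM' hlt a hf']
    simp only [cI_L]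
    unfold hI
    rw [if_neg hj, pull_blk _ _ _ _ _ (cI_L i j) (cI_L i j)]
  · rw [if_pos heq]
    refine prodF_margL_zero σ _ ?_
    rw [key]
    refine Finset.sum_eq_zero fun b _ => f2 _ ?_
    rw [Finset.card_insert_of_notMem (hf'.not_mem b), heq]
    exact Nat.lt_succ_self _
  · rw [if_neg hgt.ne']
    refine prodF_margL_eq σ _ ?_
    rw [key]
    simp only [cI_L]
    unfold hI
    rw [if_neg hj, pull_blk _ _ _ _ _ (cI_L i j) (cI_L i j), f2 _ hgt]
    refine Finset.sum_eq_zero fun b _ => f2 _ ?_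
    exact lt_of_lt_of_le hgt (Finset.card_le_card (Finset.subset_insert _ _))

theorem Hi_margR_other {D : ℕ} (hh : h ∈ Co K A B D) {i j : J} (hj : j ≠ i)
    (σ : Finset (((J × A) ⊕ B) × ((J × B) ⊕ A))) (hM : IsM σ) (b : B) (hf : FreeR σ (L j b)) :
    ∑ x, Hi h bt i (insert (x, L j b) σ) =
      if (pull (L j) (L j) σ).card = D then 0 else Hi h bt i σ := by
  have key : ∑ x ∈ univ.filter (fun x : (J × A) ⊕ B => cI i x = cI i (L j b : (J × B) ⊕ A)),
      hI h bt i (cI i (L j b : (J × B) ⊕ A)) (insert (x, L j b)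
        (blk (cI i) (cI i) (cI i (L j b : (J × B) ⊕ A)) σ)) =
      ∑ a, h (insert (a, b) (pull (L j) (L j) σ)) := by
    simp only [cI_L]
    unfold hI
    simp only [if_neg hj]
    rw [sum_localR (L_inj j) (L_inj j) (cI i) j (cI_eq_ne hj),
      pull_blk _ _ _ _ _ (cI_L i j) (cI_L i j)]
  have hM' : IsM (pull (L j) (L j) σ) := hM.pull (L_inj j) (L_inj j)
  have hf' : FreeR (pull (L j) (L j) σ) b := hf.pull (L_inj j)
  obtain ⟨f1, f2, f3, f4⟩ := hh
  rcases lt_trichotomy (pull (L j) (L j) σ).card D with hlt | heq | hgt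
  · rw [if_neg hlt.ne]
    refine prodF_margR_eq σ _ ?_
    rw [key, f4 _ hM' hlt b hf']
    simp only [cI_L]
    unfold hI
    rw [if_neg hj, pull_blk _ _ _ _ _ (cI_L i j) (cI_L i j)]
  · rw [if_pos heq]
    refine prodF_margR_zero σ _ ?_
    rw [key]
    refine Finset.sum_eq_zero fun a _ => f2 _ ?_
    rw [Finset.card_insert_of_notMem (hf'.not_mem a), heq]
    exact Nat.lt_succ_self _
  · rw [if_neg hgt.ne']
    refine prodF_margR_eq σ _ ?_
    rw [key]
    simp only [cI_L]
    unfold hI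
    rw [if_neg hj, pull_blk _ _ _ _ _ (cI_L i j) (cI_L i j), f2 _ hgt]
    refine Finset.sum_eq_zero fun a _ => f2 _ ?_
    exact lt_of_lt_of_le hgt (Finset.card_le_card (Finset.subset_insert _ _))

theorem Hi_nonM {S D : ℕ} (hbt : bt ∈ Co K (A ⊕ B) (B ⊕ A) S) (hh : h ∈ Co K A B D) (i : J)
    {σ : Finset (((J × A) ⊕ B) × ((J × B) ⊕ A))} (hM : ¬ IsM σ) : Hi h bt i σ = 0 := by
  refine prodF_nonM (fun l τ hτ hM' => ?_) hM
  unfold hI
  by_cases hl : l = i
  · rw [if_pos hl]
    subst hl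
    exact (LocCo.of_Co (K := K) (E_inj (A := A) (B := B) l) (E_inj (A := B) (B := A) l)
      (c := cI l) (c' := cI l) (l := l) (cI_eq_self l) (cI_eq_self l) hbt).nonM τ hτ hM'
  · rw [if_neg hl]
    exact (LocCo.of_Co (K := K) (L_inj (A := A) (B := B) l) (L_inj (A := B) (B := A) l)
      (c := cI i) (c' := cI i) (l := l) (cI_eq_ne hl) (cI_eq_ne hl) hh).nonM τ hτ hM'

/-- the sum over the other summands vanishes when the block `j` has exactly `D` edges -/
theorem sum_Hi_eq {p D : ℕ} [CharP K p] (hJ : Fintype.card J = p + 1)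
    (hbt : ∀ τ, τ.card ≤ D → bt τ = G2 h τ) (j : J)
    (σ : Finset (((J × A) ⊕ B) × ((J × B) ⊕ A))) (hσ : σ.card ≤ 2 * D)
    (hj : (pull (L j) (L j) σ).card = D) :
    ∑ i, Hi h bt i σ = Hi h bt j σ := by
  rw [← Finset.add_sum_erase univ _ (Finset.mem_univ j)]
  have : ∑ i ∈ univ.erase j, Hi h bt i σ = ∑ i ∈ univ.erase j, H0 h σ := by
    refine Finset.sum_congr rfl fun i hi => ?_
    have hi' : i ≠ j := Finset.ne_of_mem_erase hi
    refine Hi_eq_H0 h bt hbt i σ ?_
    have h1 := card_pull_le_blk (E_inj (A := A) (B := B) i) (E_inj (A := B) (B := A) i)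
      (cI i) (cI i) i (cI_E i) (cI_E i) σ
    have h2 := card_pull_le_blk (L_inj (A := A) (B := B) j) (L_inj (A := B) (B := A) j)
      (cI i) (cI i) j (cI_L i j) (cI_L i j) σ
    have h3 := card_blk_add (cI (A := A) (B := B) i) (cI (A := B) (B := A) i) hi' σ
    omega
  rw [this, Finset.sum_const, Finset.card_erase_of_mem (Finset.mem_univ j), Finset.card_univ, hJ]
  simp

/-- THE DESIGN STEP -/
theorem design_step {p D : ℕ} [CharP K p] (hJ : Fintype.card J = p + 1)
    (hSC : ∀ F ∈ Co K (A ⊕ B) (B ⊕ A) D, ∃ S, 2 * D < S ∧ ∃ G ∈ Co K (A ⊕ B) (B ⊕ A) S,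
      ∀ σ, σ.card ≤ D → G σ = F σ)
    (hh : h ∈ Co K A B D) (h1 : h ∅ = 1) :
    ∃ H ∈ Co K ((J × A) ⊕ B) ((J × B) ⊕ A) (2 * D + 1), H ∅ = 1 := by
  classical
  obtain ⟨S, hS, bt, hbt, hbt'⟩ := hSC _ (G2_mem_Co h hh)
  have hbt2 : ∀ τ : Finset ((A ⊕ B) × (B ⊕ A)), τ.card ≤ D → bt τ = G2 h τ := by
    intro τ hτ
    rw [hbt' τ hτ, if_pos hτ]
  have hbt1 : bt ∅ = 1 := by
    rw [hbt2 ∅ (by simp)]
    unfold G2 prodF
    rw [if_pos good_empty]
    refine Finset.prod_eq_one fun l _ => ?_
    rw [blk_empty]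
    unfold h2
    rw [pull_empty, pull_empty, swp_empty]
    split_ifs <;> exact h1
  refine ⟨fun σ => if σ.card ≤ 2 * D + 1 then ∑ i, Hi h bt i σ else 0, ⟨fun σ hσ => ?_,
    fun σ hσ => ?_, fun σ hσ hc x hx => ?_, fun σ hσ hc y hy => ?_⟩, ?_⟩
  · beta_reduce
    split_ifs
    · exact Finset.sum_eq_zero fun i _ => Hi_nonM hbt hh i hσ
    · rfl
  · beta_reduce
    rw [if_neg (not_le.2 hσ)]
  · beta_reduce
    rw [if_pos hc.le]
    have e1 : ∀ y : (J × B) ⊕ A, (if (insert (x, y) σ).card ≤ 2 * D + 1 then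
        ∑ i, Hi h bt i (insert (x, y) σ) else 0) = ∑ i, Hi h bt i (insert (x, y) σ) := by
      intro y
      rw [if_pos ((Finset.card_insert_le _ _).trans hc)]
    simp only [e1]
    rw [Finset.sum_comm]
    have hc' : σ.card ≤ 2 * D := Nat.lt_succ_iff.1 hc
    rcases x with ⟨j, a⟩ | b
    · by_cases hj : (pull (L j) (L j) σ).card = D
      · rw [sum_Hi_eq hJ hbt2 j σ hc' hj]
        rw [← Finset.add_sum_erase univ _ (Finset.mem_univ j),
          Hi_margL_own hbt j σ hσ (lt_of_le_of_lt hc' hS) _ rfl hx]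
        rw [Finset.sum_eq_zero, add_zero]
        intro i hi
        have := Hi_margL_other (bt := bt) hh (Finset.ne_of_mem_erase hi).symm σ hσ a hx
        rw [if_pos hj] at this
        exact this
      · refine Finset.sum_congr rfl fun i _ => ?_
        by_cases hi : j = i
        · subst hi
          exact Hi_margL_own hbt j σ hσ (lt_of_le_of_lt hc' hS) _ rfl hx
        · have := Hi_margL_other (bt := bt) hh hi σ hσ a hx
          rw [if_neg hj] at this
          exact this
    · refine Finset.sum_congr rfl fun i _ => ?_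
      exact Hi_margL_own hbt i σ hσ (lt_of_le_of_lt hc' hS) _ rfl hx
  · beta_reduce
    rw [if_pos hc.le]
    have e1 : ∀ x : (J × A) ⊕ B, (if (insert (x, y) σ).card ≤ 2 * D + 1 then
        ∑ i, Hi h bt i (insert (x, y) σ) else 0) = ∑ i, Hi h bt i (insert (x, y) σ) := by
      intro x
      rw [if_pos ((Finset.card_insert_le _ _).trans hc)]
    simp only [e1]
    rw [Finset.sum_comm]
    have hc' : σ.card ≤ 2 * D := Nat.lt_succ_iff.1 hc
    rcases y with ⟨j, b⟩ | a
    · by_cases hj : (pull (L j) (L j) σ).card = D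
      · rw [sum_Hi_eq hJ hbt2 j σ hc' hj]
        rw [← Finset.add_sum_erase univ _ (Finset.mem_univ j),
          Hi_margR_own hbt j σ hσ (lt_of_le_of_lt hc' hS) _ rfl hy]
        rw [Finset.sum_eq_zero, add_zero]
        intro i hi
        have := Hi_margR_other (bt := bt) hh (Finset.ne_of_mem_erase hi).symm σ hσ b hy
        rw [if_pos hj] at this
        exact this
      · refine Finset.sum_congr rfl fun i _ => ?_
        by_cases hi : j = i
        · subst hi
          exact Hi_margR_own hbt j σ hσ (lt_of_le_of_lt hc' hS) _ rfl hy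
        · have := Hi_margR_other (bt := bt) hh hi σ hσ b hy
          rw [if_neg hj] at this
          exact this
    · refine Finset.sum_congr rfl fun i _ => ?_
      exact Hi_margR_own hbt i σ hσ (lt_of_le_of_lt hc' hS) _ rfl hy
  · beta_reduce
    rw [if_pos (by simp)]
    rw [Finset.sum_congr rfl (fun i _ => Hi_empty h bt i h1 hbt1), Finset.sum_const,
      Finset.card_univ, hJ]
    simp

end Design

end H41.FZ
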