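import Pool.Agent.Helper81.FZ.Basic
import Pool.Agent.Helper41.FZ.Design

set_option autoImplicit false

namespace H41.FZ

open Finset

theorem insert_inst {γ : Type*} (d1 d2 : DecidableEq γ) (x : γ) (s : Finset γ) :
    @insert _ _ (@Finset.instInsert γ d1) x s = @insert _ _ (@Finset.instInsert γ d2) x s := by
  have : d1 = d2 := Subsingleton.elim _ _
  rw [this]

theorem sum_freeR {K : Type*} [Field K] {α β : Type*} [Fintype α] [Fintype β] [DecidableEq α]
    [DecidableEq β] (F : Finset (α × β) → K) (h1 : ∀ σ, ¬ IsM σ → F σ = 0)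
    (σ : Finset (α × β)) (a : α) (ha : FreeL σ a) (d : DecidablePred (FreeR σ)) :
    ∑ b, F (insert (a, b) σ) = ∑ b with FreeR σ b, F (insert (a, b) σ) := by
  rw [Finset.sum_filter]
  refine Finset.sum_congr rfl fun b _ => ?_
  split_ifs with hb
  · rfl
  · apply h1
    intro hM
    unfold FreeR at hb
    push Not at hb
    obtain ⟨e, he, heb⟩ := hb
    have := hM e (Finset.mem_insert_of_mem he) (a, b) (Finset.mem_insert_self _ _) (Or.inr heb)
    exact ha e he (by rw [this])

theorem sum_freeL {K : Type*} [Field K] {α β : Type*} [Fintype α] [Fintype β] [DecidableEq α]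
    [DecidableEq β] (F : Finset (α × β) → K) (h1 : ∀ σ, ¬ IsM σ → F σ = 0)
    (σ : Finset (α × β)) (b : β) (hb : FreeR σ b) (d : DecidablePred (FreeL σ)) :
    ∑ a, F (insert (a, b) σ) = ∑ a with FreeL σ a, F (insert (a, b) σ) := by
  rw [Finset.sum_filter]
  refine Finset.sum_congr rfl fun a _ => ?_
  split_ifs with ha
  · rfl
  · apply h1
    intro hM
    unfold FreeL at ha
    push Not at ha
    obtain ⟨e, he, hea⟩ := ha
    have := hM e (Finset.mem_insert_of_mem he) (a, b) (Finset.mem_insert_self _ _) (Or.inl hea)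
    exact hb e he (by rw [this])

/-- the two definitions of consistent functions agree -/
theorem co_iff {K : Type*} [Field K] {α β : Type*} [Fintype α] [Fintype β] [DecidableEq α]
    [DecidableEq β] (s : ℕ) (F : Finset (α × β) → K) :
    F ∈ Co K α β s ↔ F ∈ Pool.Agent.Helper81.FZ.Co K α β s := by
  classical
  constructor
  · rintro ⟨h1, h2, h3, h4⟩
    refine ⟨fun σ hσ => ?_, fun σ hσ hc => ⟨fun a ha => ?_, fun b hb => ?_⟩⟩
    · by_cases hM : IsM σ
      · exact h2 σ (not_le.1 fun h => hσ ⟨hM, h⟩)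
      · exact h1 σ hM
    · rw [← h3 σ hσ hc a ha, sum_freeR F h1 σ a ha (fun b => Classical.propDecidable _)]
      refine Finset.sum_congr rfl fun b _ => ?_
      rw [insert_inst]
    · rw [← h4 σ hσ hc b hb, sum_freeL F h1 σ b hb (fun b => Classical.propDecidable _)]
      refine Finset.sum_congr rfl fun b _ => ?_
      rw [insert_inst]
  · rintro ⟨h1, h2⟩
    have h0 : ∀ σ, ¬ IsM σ → F σ = 0 := fun σ hσ => h1 σ (fun h => hσ h.1)
    refine ⟨h0, fun σ hσ => h1 σ (fun h => absurd h.2 (not_le.2 hσ)), fun σ hσ hc a ha => ?_,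
      fun σ hσ hc b hb => ?_⟩
    · rw [← (h2 σ hσ hc).1 a ha, sum_freeR F h0 σ a ha (fun b => Classical.propDecidable _)]
      refine Finset.sum_congr rfl fun b _ => ?_
      rw [insert_inst]
    · rw [← (h2 σ hσ hc).2 b hb, sum_freeL F h0 σ b hb (fun b => Classical.propDecidable _)]
      refine Finset.sum_congr rfl fun b _ => ?_
      rw [insert_inst]

open Classical in
/-- products of two consistent functions -/
theorem prod2_mem_Co {K : Type*} [Field K] {A B A' B' : Type*} [Fintype A] [Fintype B] [Fintype A']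
    [Fintype B'] [DecidableEq A] [DecidableEq B] [DecidableEq A'] [DecidableEq B'] {D : ℕ}
    {F : Finset (A × B) → K} {G : Finset (A' × B') → K} (hF : F ∈ Co K A B D)
    (hG : G ∈ Co K A' B' D) :
    ∃ H ∈ Co K (A ⊕ A') (B ⊕ B') D, H ∅ = F ∅ * G ∅ := by
  let h : Bool → Finset ((A ⊕ A') × (B ⊕ B')) → K := fun l τ =>
    if l = true then F (pull Sum.inl Sum.inl τ) else G (pull Sum.inr Sum.inr τ)
  refine ⟨_, @prodF_mem_Co K _ (A ⊕ A') (B ⊕ B') Bool _ _ _ _ _ _ Sum.isLeft Sum.isLeft h D ?_, ?_⟩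
  · rintro (_ | _)
    · exact LocCo.of_Co (K := K) (f := (Sum.inr : A' → A ⊕ A')) (g := (Sum.inr : B' → B ⊕ B'))
        Sum.inr_injective Sum.inr_injective (c := Sum.isLeft) (c' := Sum.isLeft) (l := false)
        (by rintro (a | b) <;> simp) (by rintro (a | b) <;> simp) hG
    · exact LocCo.of_Co (K := K) (f := (Sum.inl : A → A ⊕ A')) (g := (Sum.inl : B → B ⊕ B'))
        Sum.inl_injective Sum.inl_injective (c := Sum.isLeft) (c' := Sum.isLeft) (l := true)
        (by rintro (a | b) <;> simp) (by rintro (a | b) <;> simp) hF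
  · rw [if_pos (by simp)]
    unfold prodF
    rw [if_pos good_empty, Fintype.prod_bool, blk_empty, blk_empty]
    change F (pull Sum.inl Sum.inl ∅) * G (pull Sum.inr Sum.inr ∅) = _
    rw [pull_empty, pull_empty]

end H41.FZ
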