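import Pool.Agent.Helper41.FZ.ProdF

namespace H41.FZ

open Finset

section PullMore

variable {α β A B A' B' I : Type*} [DecidableEq α] [DecidableEq β] [Fintype A] [Fintype B]
  [DecidableEq A] [DecidableEq B] [Fintype A'] [Fintype B'] [DecidableEq A'] [DecidableEq B']
  [DecidableEq I]

theorem pull_pull (f : A → α) (g : B → β) (f' : A' → A) (g' : B' → B) (σ : Finset (α × β)) :
    pull f' g' (pull f g σ) = pull (f ∘ f') (g ∘ g') σ := by
  ext e; simp

theorem pull_blk (f : A → α) (g : B → β) (c : α → I) (c' : β → I) (l : I)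
    (hf : ∀ a, c (f a) = l) (hg : ∀ b, c' (g b) = l) (σ : Finset (α × β)) :
    pull f g (blk c c' l σ) = pull f g σ := by
  ext e; simp [mem_blk, hf, hg]

theorem card_pull_le_blk {f : A → α} {g : B → β} (hfi : f.Injective) (hgi : g.Injective)
    (c : α → I) (c' : β → I) (l : I)
    (hf : ∀ a, c (f a) = l) (hg : ∀ b, c' (g b) = l) (σ : Finset (α × β)) :
    (pull f g σ).card ≤ (blk c c' l σ).card := by
  rw [← pull_blk f g c c' l hf hg]
  exact card_pull_le hfi hgi _

theorem card_blk_add (c : α → I) (c' : β → I) {l l' : I} (hl : l ≠ l') (σ : Finset (α × β)) :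
    (blk c c' l σ).card + (blk c c' l' σ).card ≤ σ.card := by
  rw [← Finset.card_union_of_disjoint]
  · exact Finset.card_le_card (Finset.union_subset blk_subset blk_subset)
  · rw [Finset.disjoint_left]
    intro e he he'
    exact hl ((mem_blk.1 he).2.1.symm.trans (mem_blk.1 he').2.1)

/-- transpose -/
def swp (σ : Finset (A × B)) : Finset (B × A) := σ.map (Equiv.prodComm A B).toEmbedding

@[simp] theorem mem_swp {σ : Finset (A × B)} {e : B × A} : e ∈ swp σ ↔ (e.2, e.1) ∈ σ := by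
  obtain ⟨b, a⟩ := e
  simp [swp]

@[simp] theorem card_swp (σ : Finset (A × B)) : (swp σ).card = σ.card := by simp [swp]

theorem swp_insert (σ : Finset (A × B)) (a : A) (b : B) :
    swp (insert (a, b) σ) = insert (b, a) (swp σ) := by
  ext ⟨x, y⟩; simp [and_comm]

@[simp] theorem swp_empty : swp (∅ : Finset (A × B)) = ∅ := by
  ext ⟨x, y⟩; simp

@[simp] theorem swp_swp (σ : Finset (A × B)) : swp (swp σ) = σ := by
  ext ⟨x, y⟩; simp

theorem isM_swp {σ : Finset (A × B)} : IsM (swp σ) ↔ IsM σ := by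
  constructor
  · rintro h ⟨a, b⟩ he ⟨a', b'⟩ he' hh
    have := h (b, a) (by simpa using he) (b', a') (by simpa using he') (by simpa [or_comm] using hh)
    simp only [Prod.mk.injEq] at this ⊢
    exact ⟨this.2, this.1⟩
  · rintro h ⟨b, a⟩ he ⟨b', a'⟩ he' hh
    have := h (a, b) (by simpa using he) (a', b') (by simpa using he') (by simpa [or_comm] using hh)
    simp only [Prod.mk.injEq] at this ⊢
    exact ⟨this.2, this.1⟩

theorem freeL_swp {σ : Finset (A × B)} {b : B} : FreeL (swp σ) b ↔ FreeR σ b := by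
  constructor
  · rintro h ⟨x, y⟩ he rfl
    exact h (y, x) (by simpa using he) rfl
  · rintro h ⟨y, x⟩ he rfl
    exact h (x, y) (by simpa using he) rfl

theorem freeR_swp {σ : Finset (A × B)} {a : A} : FreeR (swp σ) a ↔ FreeL σ a := by
  constructor
  · rintro h ⟨x, y⟩ he rfl
    exact h (y, x) (by simpa using he) rfl
  · rintro h ⟨y, x⟩ he rfl
    exact h (x, y) (by simpa using he) rfl

end PullMore

section Co

variable {K : Type*} [Field K] {A B : Type*} [Fintype A] [Fintype B] [DecidableEq A]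
  [DecidableEq B]

theorem swp_mem_Co {s : ℕ} {F : Finset (A × B) → K} (hF : F ∈ Co K A B s) :
    (fun σ : Finset (B × A) => F (swp σ)) ∈ Co K B A s := by
  obtain ⟨h1, h2, h3, h4⟩ := hF
  refine ⟨fun σ hσ => h1 _ (fun h => hσ (isM_swp.1 h)), fun σ hσ => h2 _ (by simpa using hσ),
    fun σ hσ hc b hb => ?_, fun σ hσ hc a ha => ?_⟩
  · simp only [swp_insert]
    exact h4 _ (isM_swp.2 hσ) (by simpa using hc) b (freeR_swp.2 hb)
  · simp only [swp_insert]
    exact h3 _ (isM_swp.2 hσ) (by simpa using hc) a (freeL_swp.2 ha)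

theorem IsM.card_lt_of_freeL {σ : Finset (A × B)} (hM : IsM σ) {a : A} (ha : FreeL σ a) :
    σ.card < Fintype.card A := by
  have h1 : (σ.image Prod.fst).card = σ.card := by
    apply Finset.card_image_of_injOn
    intro e he e' he' hh
    exact hM e he e' he' (Or.inl hh)
  rw [← h1]
  apply Finset.card_lt_univ_of_notMem (x := a)
  intro h
  obtain ⟨e, he, hea⟩ := Finset.mem_image.1 h
  exact ha e he hea

theorem IsM.card_lt_of_freeR {σ : Finset (A × B)} (hM : IsM σ) {b : B} (hb : FreeR σ b) :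
    σ.card < Fintype.card B := by
  have := (isM_swp.2 hM).card_lt_of_freeL (freeL_swp.2 hb)
  simpa using this

theorem Co_mono_of_card {s t : ℕ} (hst : s ≤ t) (h1 : Fintype.card A ≤ s) (h2 : Fintype.card B ≤ s)
    {F : Finset (A × B) → K} (hF : F ∈ Co K A B s) : F ∈ Co K A B t := by
  obtain ⟨f1, f2, f3, f4⟩ := hF
  refine ⟨f1, fun σ hσ => f2 σ (lt_of_le_of_lt hst hσ), fun σ hσ hc a ha => ?_,
    fun σ hσ hc b hb => ?_⟩
  · exact f3 σ hσ (lt_of_lt_of_le (hσ.card_lt_of_freeL ha) h1) a ha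
  · exact f4 σ hσ (lt_of_lt_of_le (hσ.card_lt_of_freeR hb) h2) b hb

end Co

section LocCo

variable {K : Type*} [Field K] {α β I A B : Type*} [Fintype α] [Fintype β] [DecidableEq α]
  [DecidableEq β] [DecidableEq I] [Fintype A] [Fintype B] [DecidableEq A] [DecidableEq B]

/-- local consistency on the block `l` up to size `s` -/
structure LocCo (c : α → I) (c' : β → I) (l : I) (s : ℕ) (F : Finset (α × β) → K) : Prop where
  nonM : ∀ τ, (∀ e ∈ τ, c e.1 = l ∧ c' e.2 = l) → ¬ IsM τ → F τ = 0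
  big : ∀ τ, (∀ e ∈ τ, c e.1 = l ∧ c' e.2 = l) → s < τ.card → F τ = 0
  margL : ∀ τ, (∀ e ∈ τ, c e.1 = l ∧ c' e.2 = l) → IsM τ → τ.card < s → ∀ a, c a = l →
    FreeL τ a → ∑ b ∈ univ.filter (fun b => c' b = l), F (insert (a, b) τ) = F τ
  margR : ∀ τ, (∀ e ∈ τ, c e.1 = l ∧ c' e.2 = l) → IsM τ → τ.card < s → ∀ b, c' b = l →
    FreeR τ b → ∑ a ∈ univ.filter (fun a => c a = l), F (insert (a, b) τ) = F τ

theorem card_pull_eq {f : A → α} {g : B → β} (hf : f.Injective) (hg : g.Injective)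
    {τ : Finset (α × β)} (hr : ∀ e ∈ τ, (∃ a, f a = e.1) ∧ (∃ b, g b = e.2)) :
    (pull f g τ).card = τ.card := by
  refine Finset.card_bij (fun e _ => (f e.1, g e.2)) (fun e he => mem_pull.1 he) ?_ ?_
  · rintro e he e' he' h
    simp only [Prod.mk.injEq] at h
    exact Prod.ext (hf h.1) (hg h.2)
  · rintro ⟨x, y⟩ he
    obtain ⟨⟨a, ha⟩, ⟨b, hb⟩⟩ := hr _ he
    refine ⟨(a, b), ?_, by simp [ha, hb]⟩
    rw [mem_pull]
    simpa [ha, hb] using he

theorem LocCo.of_Co {f : A → α} {g : B → β} (hf : f.Injective) (hg : g.Injective)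
    {c : α → I} {c' : β → I} {l : I} (hc : ∀ x, c x = l ↔ ∃ a, f a = x)
    (hc' : ∀ y, c' y = l ↔ ∃ b, g b = y) {s : ℕ} {F : Finset (A × B) → K}
    (hF : F ∈ Co K A B s) : LocCo c c' l s (fun τ => F (pull f g τ)) := by
  obtain ⟨h1, h2, h3, h4⟩ := hF
  have hcov : ∀ τ : Finset (α × β), (∀ e ∈ τ, c e.1 = l ∧ c' e.2 = l) →
      ∀ e ∈ τ, (∃ a, f a = e.1) ∧ (∃ b, g b = e.2) :=
    fun τ hτ e he => ⟨(hc _).1 (hτ e he).1, (hc' _).1 (hτ e he).2⟩
  refine ⟨fun τ hτ hM => h1 _ (pull_nonM (hcov τ hτ) hM), fun τ hτ hs => h2 _ ?_,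
    fun τ hτ hM hs x hx hfree => ?_, fun τ hτ hM hs y hy hfree => ?_⟩
  · rw [card_pull_eq hf hg (hcov τ hτ)]; exact hs
  · obtain ⟨a, rfl⟩ := (hc x).1 hx
    rw [sum_localL hf hg c' l hc']
    exact h3 _ (hM.pull hf hg) (lt_of_le_of_lt (card_pull_le hf hg _) hs) a (hfree.pull hf)
  · obtain ⟨b, rfl⟩ := (hc' y).1 hy
    rw [sum_localR hf hg c l hc]
    exact h4 _ (hM.pull hf hg) (lt_of_le_of_lt (card_pull_le hf hg _) hs) b (hfree.pull hg)

variable [Fintype I]

open Classical in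
/-- truncated products of locally consistent functions are consistent -/
theorem prodF_mem_Co {c : α → I} {c' : β → I} {h : I → Finset (α × β) → K} {s : ℕ}
    (hh : ∀ l, LocCo c c' l s (h l)) :
    (fun σ => if σ.card ≤ s then prodF c c' h σ else 0) ∈ Co K α β s := by
  have hblk : ∀ (l : I) (σ : Finset (α × β)), ∀ e ∈ blk c c' l σ, c e.1 = l ∧ c' e.2 = l :=
    fun l σ e he => (mem_blk.1 he).2
  have hnon : ∀ σ, ¬ IsM σ → prodF c c' h σ = 0 := fun σ hσ =>
    prodF_nonM (fun l τ hτ hM => (hh l).nonM τ hτ hM) hσ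
  refine ⟨fun σ hσ => ?_, fun σ hσ => ?_, fun σ hσ hc a ha => ?_, fun σ hσ hc b hb => ?_⟩
  · simp [hnon σ hσ]
  · beta_reduce
    rw [if_neg (not_le.2 hσ)]
  · beta_reduce
    rw [if_pos hc.le, ← prodF_margL_eq σ a ?_]
    · refine Finset.sum_congr rfl fun b _ => ?_
      rw [if_pos]
      exact (Finset.card_insert_le _ _).trans hc
    · exact (hh _).margL _ (hblk _ _) (hσ.subset blk_subset)
        (lt_of_le_of_lt (Finset.card_le_card blk_subset) hc) a rfl (ha.subset blk_subset)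
  · beta_reduce
    rw [if_pos hc.le, ← prodF_margR_eq σ b ?_]
    · refine Finset.sum_congr rfl fun a _ => ?_
      rw [if_pos]
      exact (Finset.card_insert_le _ _).trans hc
    · exact (hh _).margR _ (hblk _ _) (hσ.subset blk_subset)
        (lt_of_le_of_lt (Finset.card_le_card blk_subset) hc) b rfl (hb.subset blk_subset)

end LocCo

end H41.FZ
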