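import Pool.Agent.Helper41.FZ.Basic

namespace H41.FZ

open Finset

section ProdF

variable {α β I K : Type*} [DecidableEq α] [DecidableEq β]
  [Fintype I] [DecidableEq I] [Field K]

/-- the edges of colour `l` -/
def blk (c : α → I) (c' : β → I) (l : I) (σ : Finset (α × β)) : Finset (α × β) :=
  σ.filter (fun e => c e.1 = l ∧ c' e.2 = l)

/-- no bad edges -/
def Good (c : α → I) (c' : β → I) (σ : Finset (α × β)) : Prop := ∀ e ∈ σ, c e.1 = c' e.2

open Classical in
/-- product of local functions -/
noncomputable def prodF (c : α → I) (c' : β → I) (h : I → Finset (α × β) → K)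
    (σ : Finset (α × β)) : K :=
  if Good c c' σ then ∏ l, h l (blk c c' l σ) else 0

variable {c : α → I} {c' : β → I} {h : I → Finset (α × β) → K}

omit [Fintype I] in
theorem mem_blk {l : I} {σ : Finset (α × β)} {e : α × β} :
    e ∈ blk c c' l σ ↔ e ∈ σ ∧ c e.1 = l ∧ c' e.2 = l := by simp [blk]

omit [Fintype I] in
theorem blk_subset {l : I} {σ : Finset (α × β)} : blk c c' l σ ⊆ σ := Finset.filter_subset _ _

omit [Fintype I] in
theorem blk_insert_same {l : I} {σ : Finset (α × β)} {a : α} {b : β} (h1 : c a = l)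
    (h2 : c' b = l) : blk c c' l (insert (a, b) σ) = insert (a, b) (blk c c' l σ) := by
  ext e
  simp only [mem_blk, Finset.mem_insert]
  constructor
  · rintro ⟨h3 | h3, h4⟩
    · exact Or.inl h3
    · exact Or.inr ⟨h3, h4⟩
  · rintro (h3 | ⟨h3, h4⟩)
    · subst h3; exact ⟨Or.inl rfl, h1, h2⟩
    · exact ⟨Or.inr h3, h4⟩

omit [Fintype I] in
theorem blk_insert_ne {l : I} {σ : Finset (α × β)} {a : α} {b : β} (h1 : ¬ (c a = l ∧ c' b = l)) :
    blk c c' l (insert (a, b) σ) = blk c c' l σ := by
  ext e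
  simp only [mem_blk, Finset.mem_insert]
  constructor
  · rintro ⟨h3 | h3, h4⟩
    · subst h3; exact absurd h4 h1
    · exact ⟨h3, h4⟩
  · rintro ⟨h3, h4⟩
    exact ⟨Or.inr h3, h4⟩

omit [Fintype I] [DecidableEq I] in
theorem good_insert {σ : Finset (α × β)} {a : α} {b : β} :
    Good c c' (insert (a, b) σ) ↔ c a = c' b ∧ Good c c' σ := by
  simp [Good, Finset.mem_insert]

omit [Fintype I] [DecidableEq I] [DecidableEq α] [DecidableEq β] in
theorem good_empty : Good c c' (∅ : Finset (α × β)) := by
  intro e he; simp at he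

omit [Fintype I] in
theorem blk_empty {l : I} : blk c c' l (∅ : Finset (α × β)) = ∅ := by simp [blk]

open Classical in
theorem prodF_split (σ : Finset (α × β)) (l0 : I) : prodF c c' h σ =
    if Good c c' σ then h l0 (blk c c' l0 σ) * ∏ l ∈ univ.erase l0, h l (blk c c' l σ) else 0 := by
  unfold prodF
  split_ifs
  · exact (Finset.mul_prod_erase univ (fun l => h l (blk c c' l σ)) (Finset.mem_univ l0)).symm
  · rfl

open Classical in
theorem prodF_margL [Fintype β] (σ : Finset (α × β)) (a : α) :
    ∑ b, prodF c c' h (insert (a, b) σ) =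
    if Good c c' σ then (∑ b ∈ univ.filter (fun b => c' b = c a),
      h (c a) (insert (a, b) (blk c c' (c a) σ))) *
      ∏ l ∈ univ.erase (c a), h l (blk c c' l σ) else 0 := by
  by_cases hG : Good c c' σ
  · rw [if_pos hG, Finset.sum_mul, Finset.sum_filter]
    refine Finset.sum_congr rfl fun b _ => ?_
    by_cases hb : c' b = c a
    · rw [if_pos hb, prodF_split _ (c a), if_pos (good_insert.2 ⟨hb.symm, hG⟩),
        blk_insert_same rfl hb]
      congr 1
      refine Finset.prod_congr rfl fun l hl => ?_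
      rw [blk_insert_ne]
      rintro ⟨h1, -⟩
      exact (Finset.ne_of_mem_erase hl) h1.symm
    · rw [if_neg hb]
      unfold prodF
      rw [if_neg]
      intro hc
      exact hb (good_insert.1 hc).1.symm
  · rw [if_neg hG]
    refine Finset.sum_eq_zero fun b _ => ?_
    unfold prodF
    rw [if_neg]
    intro hc
    exact hG (good_insert.1 hc).2

open Classical in
theorem prodF_margR [Fintype α] (σ : Finset (α × β)) (b : β) :
    ∑ a, prodF c c' h (insert (a, b) σ) =
    if Good c c' σ then (∑ a ∈ univ.filter (fun a => c a = c' b),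
      h (c' b) (insert (a, b) (blk c c' (c' b) σ))) *
      ∏ l ∈ univ.erase (c' b), h l (blk c c' l σ) else 0 := by
  by_cases hG : Good c c' σ
  · rw [if_pos hG, Finset.sum_mul, Finset.sum_filter]
    refine Finset.sum_congr rfl fun a _ => ?_
    by_cases ha : c a = c' b
    · rw [if_pos ha, prodF_split _ (c' b), if_pos (good_insert.2 ⟨ha, hG⟩),
        blk_insert_same ha rfl]
      congr 1
      refine Finset.prod_congr rfl fun l hl => ?_
      rw [blk_insert_ne]
      rintro ⟨-, h1⟩
      exact (Finset.ne_of_mem_erase hl) h1.symm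
    · rw [if_neg ha]
      unfold prodF
      rw [if_neg]
      intro hc
      exact ha (good_insert.1 hc).1
  · rw [if_neg hG]
    refine Finset.sum_eq_zero fun b _ => ?_
    unfold prodF
    rw [if_neg]
    intro hc
    exact hG (good_insert.1 hc).2

/-- exact marginal -/
theorem prodF_margL_eq [Fintype β] (σ : Finset (α × β)) (a : α)
    (hl : ∑ b ∈ univ.filter (fun b => c' b = c a), h (c a) (insert (a, b) (blk c c' (c a) σ))
      = h (c a) (blk c c' (c a) σ)) :
    ∑ b, prodF c c' h (insert (a, b) σ) = prodF c c' h σ := by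
  rw [prodF_margL, prodF_split σ (c a), hl]

theorem prodF_margR_eq [Fintype α] (σ : Finset (α × β)) (b : β)
    (hl : ∑ a ∈ univ.filter (fun a => c a = c' b), h (c' b) (insert (a, b) (blk c c' (c' b) σ))
      = h (c' b) (blk c c' (c' b) σ)) :
    ∑ a, prodF c c' h (insert (a, b) σ) = prodF c c' h σ := by
  rw [prodF_margR, prodF_split σ (c' b), hl]

theorem prodF_margL_zero [Fintype β] (σ : Finset (α × β)) (a : α)
    (hl : ∑ b ∈ univ.filter (fun b => c' b = c a), h (c a) (insert (a, b) (blk c c' (c a) σ)) = 0) :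
    ∑ b, prodF c c' h (insert (a, b) σ) = 0 := by
  classical
  rw [prodF_margL, hl]; simp

theorem prodF_margR_zero [Fintype α] (σ : Finset (α × β)) (b : β)
    (hl : ∑ a ∈ univ.filter (fun a => c a = c' b), h (c' b) (insert (a, b) (blk c c' (c' b) σ)) = 0) :
    ∑ a, prodF c c' h (insert (a, b) σ) = 0 := by
  classical
  rw [prodF_margR, hl]; simp

theorem prodF_eq_zero (σ : Finset (α × β)) (l : I) (hl : h l (blk c c' l σ) = 0) :
    prodF c c' h σ = 0 := by
  classical
  rw [prodF_split σ l, hl]; simp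

/-- products vanish on non matchings -/
theorem prodF_nonM (hh : ∀ l, ∀ τ : Finset (α × β), (∀ e ∈ τ, c e.1 = l ∧ c' e.2 = l) →
    ¬ IsM τ → h l τ = 0) {σ : Finset (α × β)} (hσ : ¬ IsM σ) : prodF c c' h σ = 0 := by
  classical
  by_cases hG : Good c c' σ
  · unfold IsM at hσ
    push Not at hσ
    obtain ⟨e, he, e', he', h1, h2⟩ := hσ
    have hl : c e.1 = c e'.1 := by
      rcases h1 with h1 | h1
      · rw [h1]
      · rw [hG e he, hG e' he', h1]
    refine prodF_eq_zero σ (c e.1) (hh _ _ (fun x hx => (mem_blk.1 hx).2) ?_)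
    intro hM
    exact h2 (hM e (mem_blk.2 ⟨he, rfl, (hG e he).symm⟩) e'
      (mem_blk.2 ⟨he', hl.symm, by rw [← hG e' he', hl]⟩) h1)
  · unfold prodF
    rw [if_neg hG]

end ProdF

section Local

variable {α β A B I K : Type*} [DecidableEq α] [DecidableEq β] [Fintype A] [Fintype B]
  [DecidableEq A] [DecidableEq B] [DecidableEq I] [Field K]

theorem sum_localL [Fintype β] {f : A → α} {g : B → β} (hf : f.Injective) (hg : g.Injective)
    (c' : β → I) (l : I) (hr : ∀ y, c' y = l ↔ ∃ b, g b = y) (hh : Finset (A × B) → K) (a : A)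
    (τ : Finset (α × β)) :
    ∑ y ∈ univ.filter (fun y => c' y = l), hh (pull f g (insert (f a, y) τ)) =
    ∑ b, hh (insert (a, b) (pull f g τ)) := by
  symm
  refine Finset.sum_bij (fun b _ => g b) ?_ ?_ ?_ ?_
  · intro b _
    simp only [Finset.mem_filter, Finset.mem_univ, true_and]
    exact (hr _).2 ⟨b, rfl⟩
  · intro b _ b' _ hb
    exact hg hb
  · intro y hy
    simp only [Finset.mem_filter, Finset.mem_univ, true_and] at hy
    obtain ⟨b, hb⟩ := (hr y).1 hy
    exact ⟨b, Finset.mem_univ _, hb⟩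
  · intro b _
    rw [pull_insert hf hg]

theorem sum_localR [Fintype α] {f : A → α} {g : B → β} (hf : f.Injective) (hg : g.Injective)
    (c : α → I) (l : I) (hr : ∀ x, c x = l ↔ ∃ a, f a = x) (hh : Finset (A × B) → K) (b : B)
    (τ : Finset (α × β)) :
    ∑ x ∈ univ.filter (fun x => c x = l), hh (pull f g (insert (x, g b) τ)) =
    ∑ a, hh (insert (a, b) (pull f g τ)) := by
  symm
  refine Finset.sum_bij (fun a _ => f a) ?_ ?_ ?_ ?_
  · intro a _
    simp only [Finset.mem_filter, Finset.mem_univ, true_and]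
    exact (hr _).2 ⟨a, rfl⟩
  · intro b _ b' _ hb
    exact hf hb
  · intro y hy
    simp only [Finset.mem_filter, Finset.mem_univ, true_and] at hy
    obtain ⟨b, hb⟩ := (hr y).1 hy
    exact ⟨b, Finset.mem_univ _, hb⟩
  · intro b _
    rw [pull_insert hf hg]

/-- if the block is covered by the embeddings, a non matching inside the block pulls back to a
non matching -/
theorem pull_nonM {f : A → α} {g : B → β} {τ : Finset (α × β)}
    (hr : ∀ e ∈ τ, (∃ a, f a = e.1) ∧ (∃ b, g b = e.2)) (hτ : ¬ IsM τ) : ¬ IsM (pull f g τ) := by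
  intro hM
  apply hτ
  rintro ⟨x, y⟩ he ⟨x', y'⟩ he' hh
  obtain ⟨⟨a, ha⟩, ⟨b, hb⟩⟩ := hr _ he
  obtain ⟨⟨a', ha'⟩, ⟨b', hb'⟩⟩ := hr _ he'
  simp only at ha hb ha' hb' hh
  rcases hh with hh | hh
  · have := hM (a, b) (mem_pull.2 (by simpa [ha, hb] using he)) (a, b')
      (mem_pull.2 (by simpa [ha, hh, hb'] using he')) (Or.inl rfl)
    simp only [Prod.mk.injEq, true_and] at this
    rw [hh, ← hb, ← hb', this]
  · have := hM (a, b) (mem_pull.2 (by simpa [ha, hb] using he)) (a', b)
      (mem_pull.2 (by simpa [ha', hb, hh] using he')) (Or.inr rfl)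
    simp only [Prod.mk.injEq, and_true] at this
    rw [hh, ← ha, ← ha', this]

end Local

end H41.FZ
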